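import Pool.Agent.X249.GI.Meander

/-!
# Nondeterministic oblivious branching programs for graph isomorphism
-/

set_option autoImplicit false

namespace Pool.Agent.X249.GI

open Finset

/-- A nondeterministic oblivious branching program with variables `X` and states `σ`. In the step
`t < T` it reads the variable `var t` and changes its state nondeterministically. -/
structure NOBP (X σ : Type) where
  T : ℕ
  var : ℕ → X
  start : σ → Prop
  step : ℕ → σ → Bool → σ → Prop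
  acc : σ → Prop

/-- The program has an accepting computation on the input `z`. -/
def NOBP.Accepts {X σ : Type} (P : NOBP X σ) (z : X → Bool) : Prop :=
  ∃ q : ℕ → σ, P.start (q 0) ∧ (∀ t < P.T, P.step t (q t) (z (P.var t)) (q (t + 1))) ∧
    P.acc (q P.T)

variable {X σ : Type}

/-- Computations from the state `p` in the step `s` to the state `p'` in the step `c`. -/
def Seg (P : NOBP X σ) (z : X → Bool) (s c : ℕ) (p p' : σ) : Prop :=
  ∃ q : ℕ → σ, q s = p ∧ q c = p' ∧ ∀ t, s ≤ t → t < c → P.step t (q t) (z (P.var t)) (q (t + 1))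

/-- Accepting computations from the state `p` in the step `s`. -/
def AccFrom (P : NOBP X σ) (z : X → Bool) (s : ℕ) (p : σ) : Prop :=
  ∃ p', Seg P z s P.T p p' ∧ P.acc p'

theorem seg_congr {P : NOBP X σ} {z z' : X → Bool} {s c : ℕ} {p p' : σ}
    (h : ∀ t, s ≤ t → t < c → z (P.var t) = z' (P.var t)) (h1 : Seg P z s c p p') :
    Seg P z' s c p p' := by
  obtain ⟨q, h2, h3, h4⟩ := h1
  refine ⟨q, h2, h3, fun t h5 h6 => ?_⟩
  rw [← h t h5 h6]
  exact h4 t h5 h6

theorem accepts_iff {P : NOBP X σ} {z : X → Bool} :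
    P.Accepts z ↔ ∃ p, P.start p ∧ AccFrom P z 0 p := by
  constructor
  · rintro ⟨q, h1, h2, h3⟩
    exact ⟨q 0, h1, q P.T, ⟨q, rfl, rfl, fun t _ h => h2 t h⟩, h3⟩
  · rintro ⟨p, h1, p', ⟨q, rfl, rfl, h2⟩, h3⟩
    exact ⟨q, h1, fun t h => h2 t (Nat.zero_le _) h, h3⟩

theorem accFrom_cut {P : NOBP X σ} {z : X → Bool} {s c : ℕ} (hs : s ≤ c) (hc : c ≤ P.T) {p : σ} :
    AccFrom P z s p ↔ ∃ p', Seg P z s c p p' ∧ AccFrom P z c p' := by
  constructor
  · rintro ⟨p', ⟨q, h1, h2, h3⟩, h4⟩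
    exact ⟨q c, ⟨q, h1, rfl, fun t h5 h6 => h3 t h5 (by omega)⟩, p',
      ⟨q, rfl, h2, fun t h5 h6 => h3 t (by omega) h6⟩, h4⟩
  · rintro ⟨p', ⟨q, h1, h2, h3⟩, p'', ⟨q', h4, h5, h6⟩, h7⟩
    refine ⟨p'', ⟨fun t => if t ≤ c then q t else q' t, ?_, ?_, ?_⟩, h7⟩
    · simp only
      rw [if_pos hs, h1]
    · simp only
      rcases hc.eq_or_lt with h8 | h8
      · rw [if_pos h8.ge, ← h8, h2, ← h4, h8, h5]
      · rw [if_neg (by omega), h5]
    · intro t h8 h9
      simp only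
      rcases Nat.lt_trichotomy t c with h10 | h10 | h10
      · rw [if_pos h10.le, if_pos (by omega)]
        exact h3 t h8 h10
      · subst h10
        rw [if_pos le_rfl, if_neg (by omega), h2, ← h4]
        exact h6 t le_rfl h9
      · rw [if_neg (by omega), if_neg (by omega)]
        exact h6 t h10.le h9

/-- Programs with few alternations yield few rectangles. -/
theorem cover [Fintype σ] (P : NOBP X σ) {U V : Type} (zf : U → V → X → Bool) {A B : Finset X}
    (hA : ∀ v ∉ B, ∀ x y y', zf x y v = zf x y' v) (hB : ∀ v ∉ A, ∀ x x' y, zf x y v = zf x' y v) :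
    ∀ (r s : ℕ), s ≤ P.T → Alt P.var P.T A B r s → ∀ p, ∃ (I : Type) (_ : Fintype I),
      Fintype.card I ≤ Fintype.card σ ^ r ∧ ∃ R : I → Set U × Set V,
        ∀ x y, AccFrom P (zf x y) s p ↔ ∃ i, x ∈ (R i).1 ∧ y ∈ (R i).2 := by
  -- parts where only one kind of variables is read
  have hseg : ∀ s c, (Free P.var s c A ∨ Free P.var s c B) → ∀ p p', ∃ R : Set U × Set V,
      ∀ x y, Seg P (zf x y) s c p p' ↔ x ∈ R.1 ∧ y ∈ R.2 := by
    rintro s c (h | h) p p'
    · refine ⟨(Set.univ, {y | ∃ x, Seg P (zf x y) s c p p'}), fun x y => ?_⟩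
      simp only [Set.mem_univ, true_and, Set.mem_ofPred_eq]
      exact ⟨fun h1 => ⟨x, h1⟩, fun ⟨x', h1⟩ =>
        seg_congr (fun t h2 h3 => hB _ (h t h2 h3) x' x y) h1⟩
    · refine ⟨({x | ∃ y, Seg P (zf x y) s c p p'}, Set.univ), fun x y => ?_⟩
      simp only [Set.mem_univ, and_true, Set.mem_ofPred_eq]
      exact ⟨fun h1 => ⟨y, h1⟩, fun ⟨y', h1⟩ =>
        seg_congr (fun t h2 h3 => hA _ (h t h2 h3) x y' y) h1⟩
  intro r
  induction r with
  | zero =>
    intro s _ halt p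
    have h : Free P.var s P.T A ∨ Free P.var s P.T B := halt
    refine ⟨Unit, inferInstance, by simp, ?_⟩
    rcases h with h | h
    · refine ⟨fun _ => (Set.univ, {y | ∃ x, AccFrom P (zf x y) s p}), fun x y => ?_⟩
      simp only [Set.mem_univ, true_and, Set.mem_ofPred_eq, exists_const]
      constructor
      · exact fun h1 => ⟨x, h1⟩
      · rintro ⟨x', p', h1, h2⟩
        exact ⟨p', seg_congr (fun t h3 h4 => hB _ (h t h3 h4) x' x y) h1, h2⟩
    · refine ⟨fun _ => ({x | ∃ y, AccFrom P (zf x y) s p}, Set.univ), fun x y => ?_⟩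
      simp only [Set.mem_univ, and_true, Set.mem_ofPred_eq, exists_const]
      constructor
      · exact fun h1 => ⟨y, h1⟩
      · rintro ⟨y', p', h1, h2⟩
        exact ⟨p', seg_congr (fun t h3 h4 => hA _ (h t h3 h4) x y' y) h1, h2⟩
  | succ r ih =>
    intro s hs halt p
    obtain ⟨c, hsc, hcT, hfree, halt'⟩ := halt
    have ih' := ih c hcT halt'
    choose I hI hcard R hR using ih'
    have hseg' := hseg s c hfree p
    choose R₀ hR₀ using hseg'
    refine ⟨Σ p', I p', inferInstance, ?_,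
      fun j => ((R₀ j.1).1 ∩ (R j.1 j.2).1, (R₀ j.1).2 ∩ (R j.1 j.2).2), fun x y => ?_⟩
    · rw [Fintype.card_sigma, pow_succ, mul_comm]
      refine (Finset.sum_le_card_nsmul _ _ (Fintype.card σ ^ r) (fun p' _ => hcard p')).trans ?_
      rw [Finset.card_univ, smul_eq_mul]
    · rw [accFrom_cut hsc hcT]
      constructor
      · rintro ⟨p', h1, h2⟩
        rw [hR₀] at h1
        rw [hR] at h2
        obtain ⟨i, hi⟩ := h2
        exact ⟨⟨p', i⟩, ⟨h1.1, hi.1⟩, h1.2, hi.2⟩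
      · rintro ⟨⟨p', i⟩, ⟨h1, h2⟩, h3, h4⟩
        exact ⟨p', (hR₀ p' x y).2 ⟨h1, h3⟩, (hR p' x y).2 ⟨i, h2, h4⟩⟩

/-- The bits of a pair of graphs. -/
noncomputable def pairBits {V : Type} (G H : SimpleGraph V) : Bool × Sym2 V → Bool := by
  classical
  exact fun v => if v.1 then decide (v.2 ∈ H.edgeSet) else decide (v.2 ∈ G.edgeSet)

/-- The graphs on two sides with `m` vertices each where the left side is a clique (if `a`) or an
independent set (if not `a`), and the right side is a clique (if `b`) or an independent set. -/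
def Sided {m : ℕ} (a b : Prop) (G : SimpleGraph (Fin m ⊕ Fin m)) : Prop :=
  (∀ i j, i ≠ j → (G.Adj (Sum.inl i) (Sum.inl j) ↔ a)) ∧
    ∀ i j, i ≠ j → (G.Adj (Sum.inr i) (Sum.inr j) ↔ b)

/-- The program decides whether two graphs of the class are isomorphic. -/
def DecidesIsoOn {m : ℕ} (a b : Prop) (P : NOBP (Bool × Sym2 (Fin m ⊕ Fin m)) σ) : Prop :=
  ∀ G H : SimpleGraph (Fin m ⊕ Fin m), Sided a b G → Sided a b H →
    (P.Accepts (pairBits G H) ↔ Nonempty (G ≃g H))

/-- The graph with given edges between the sides. -/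
def gr {m : ℕ} (a b : Prop) (x : Finset (Fin m × Fin m)) : SimpleGraph (Fin m ⊕ Fin m) where
  Adj u v := match u, v with
    | Sum.inl i, Sum.inl j => i ≠ j ∧ a
    | Sum.inr i, Sum.inr j => i ≠ j ∧ b
    | Sum.inl i, Sum.inr j => (i, j) ∈ x
    | Sum.inr j, Sum.inl i => (i, j) ∈ x
  symm := ⟨by
    rintro (i | i) (j | j) h
    · exact ⟨h.1.symm, h.2⟩
    · exact h
    · exact h
    · exact ⟨h.1.symm, h.2⟩⟩
  loopless := ⟨by
    rintro (i | i) h
    · exact h.1 rfl
    · exact h.1 rfl⟩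

theorem gr_sided {m : ℕ} (a b : Prop) (x : Finset (Fin m × Fin m)) : Sided a b (gr a b x) :=
  ⟨fun i j h => ⟨fun h' => h'.2, fun h' => ⟨h, h'⟩⟩, fun i j h => ⟨fun h' => h'.2, fun h' => ⟨h, h'⟩⟩⟩

/-- The pair of vertices at a position. -/
def ed {m : ℕ} (p : Fin m × Fin m) : Sym2 (Fin m ⊕ Fin m) := s(Sum.inl p.1, Sum.inr p.2)

theorem ed_injective {m : ℕ} : Function.Injective (ed (m := m)) := by
  rintro ⟨i, j⟩ ⟨k, l⟩ h
  simpa [ed] using h

theorem ed_mem {m : ℕ} {a b : Prop} {x : Finset (Fin m × Fin m)} {p : Fin m × Fin m} :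
    ed p ∈ (gr a b x).edgeSet ↔ p ∈ x := Iff.rfl

/-- Vertex pairs inside the sides do not depend on `x`. -/
theorem mem_edgeSet_congr {m : ℕ} {a b : Prop} {x y : Finset (Fin m × Fin m)}
    {e : Sym2 (Fin m ⊕ Fin m)} (h : ∀ p, ed p = e → (p ∈ x ↔ p ∈ y)) :
    e ∈ (gr a b x).edgeSet ↔ e ∈ (gr a b y).edgeSet := by
  induction e using Sym2.ind with
  | _ u v =>
    rcases u with i | i <;> rcases v with j | j
    · exact Iff.rfl
    · exact h (i, j) rfl
    · exact h (j, i) Sym2.eq_swap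
    · exact Iff.rfl

/-! ### Permutations -/

theorem exists_perms {m : ℕ} (p p' : Fin m × Fin m) :
    ∃ ρ : Equiv.Perm (Fin m) × Equiv.Perm (Fin m), (ρ.1 p.1, ρ.2 p.2) = p' :=
  ⟨(Equiv.swap p.1 p'.1, Equiv.swap p.2 p'.2), by
    simp only [Equiv.swap_apply_left]⟩

/-- Averaging over the permutations. -/
theorem exists_overlap {m : ℕ} (A B : Finset (Fin m × Fin m)) :
    ∃ ρ : Equiv.Perm (Fin m) × Equiv.Perm (Fin m),
      #A * #B ≤ m ^ 2 * #{p ∈ A | (ρ.1 p.1, ρ.2 p.2) ∈ B} := by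
  classical
  have hcard : #(univ : Finset (Fin m × Fin m)) = m ^ 2 := by
    rw [card_univ, Fintype.card_prod, Fintype.card_fin, pow_two]
  let c : Fin m × Fin m → Fin m × Fin m → ℕ := fun e f =>
    #{ρ : Equiv.Perm (Fin m) × Equiv.Perm (Fin m) | (ρ.1 e.1, ρ.2 e.2) = f}
  have hc : ∀ e f f', c e f ≤ c e f' := by
    intro e f f'
    obtain ⟨τ, hτ⟩ := exists_perms f f'
    apply card_le_card_of_injOn (fun ρ => τ * ρ)
    · intro ρ hρ
      simp only [coe_filter, mem_univ, true_and, Set.mem_ofPred_eq] at hρ ⊢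
      rw [← hτ, ← hρ]
      rfl
    · intro u _ v _ huv
      exact mul_left_cancel huv
  set M := Fintype.card (Equiv.Perm (Fin m) × Equiv.Perm (Fin m)) with hM
  have hsum : ∀ e, ∑ f, c e f = M := by
    intro e
    rw [hM, ← Finset.card_univ]
    exact (card_eq_sum_card_fiberwise (fun _ _ => mem_coe.2 (mem_univ _))).symm
  have hcc : ∀ e f, m ^ 2 * c e f = M := by
    intro e f
    rw [← hsum e, ← hcard, ← smul_eq_mul, ← Finset.sum_const]
    exact sum_congr rfl (fun f' _ => le_antisymm (hc e f f') (hc e f' f))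
  by_contra hcon
  push Not at hcon
  have hlt : ∑ ρ : Equiv.Perm (Fin m) × Equiv.Perm (Fin m),
      m ^ 2 * #{p ∈ A | (ρ.1 p.1, ρ.2 p.2) ∈ B} <
      ∑ _ρ : Equiv.Perm (Fin m) × Equiv.Perm (Fin m), #A * #B :=
    sum_lt_sum_of_nonempty univ_nonempty (fun ρ _ => hcon ρ)
  have h2 : ∑ ρ : Equiv.Perm (Fin m) × Equiv.Perm (Fin m),
      m ^ 2 * #{p ∈ A | (ρ.1 p.1, ρ.2 p.2) ∈ B} = ∑ e ∈ A, ∑ f ∈ B, m ^ 2 * c e f := by
    rw [← mul_sum]
    have : ∀ e ∈ A, ∑ f ∈ B, m ^ 2 * c e f = m ^ 2 *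
        ∑ ρ : Equiv.Perm (Fin m) × Equiv.Perm (Fin m),
          if (ρ.1 e.1, ρ.2 e.2) ∈ B then 1 else 0 := by
      intro e _
      rw [← mul_sum]
      congr 1
      simp only [c, card_filter]
      rw [sum_comm]
      refine sum_congr rfl (fun ρ _ => ?_)
      rw [sum_ite_eq]
    rw [sum_congr rfl this, ← mul_sum]
    congr 1
    rw [sum_comm]
    refine sum_congr rfl (fun ρ _ => ?_)
    rw [card_filter]
  have h3 : ∑ e ∈ A, ∑ f ∈ B, m ^ 2 * c e f = #A * #B * M := by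
    rw [sum_congr rfl (fun e _ => sum_congr rfl (fun f _ => hcc e f))]
    rw [sum_const, sum_const, smul_eq_mul, smul_eq_mul, mul_assoc]
  rw [h2, h3, sum_const, smul_eq_mul, card_univ, mul_comm] at hlt
  exact lt_irrefl _ hlt

end Pool.Agent.X249.GI
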