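import Mathlib

/-!
# Sequences with few alternations (Alon and Maass)
-/

set_option autoImplicit false

namespace Pool.Agent.X249.GI

open Finset

variable {X : Type} [DecidableEq X]

/-- No element of `S` is read in the steps `s, ..., c - 1`. -/
def Free (v : ℕ → X) (s c : ℕ) (S : Finset X) : Prop := ∀ t, s ≤ t → t < c → v t ∉ S

/-- The steps `s, ..., T - 1` can be cut at `r` places such that no part reads both elements of
`A` and elements of `B`. -/
def Alt (v : ℕ → X) (T : ℕ) (A B : Finset X) : ℕ → ℕ → Prop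
  | 0, s => Free v s T A ∨ Free v s T B
  | r + 1, s => ∃ c, s ≤ c ∧ c ≤ T ∧ (Free v s c A ∨ Free v s c B) ∧ Alt v T A B r c

/-- The number of times `x` is read in the steps `s, ..., T - 1`. -/
def occ (v : ℕ → X) (T s : ℕ) (x : X) : ℕ := #{t ∈ Ico s T | v t = x}

theorem occ_lt {v : ℕ → X} {T s c : ℕ} (hc : c ≤ T) (hs : s ≤ c) {x : X}
    (hx : ∃ t, s ≤ t ∧ t < c ∧ v t = x) : occ v T c x < occ v T s x := by
  obtain ⟨t, h1, h2, h3⟩ := hx
  apply card_lt_card
  rw [Finset.ssubset_iff_of_subset]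
  · exact ⟨t, by simp [h1, h3]; omega, by simp; omega⟩
  · intro u hu
    simp only [mem_filter, mem_Ico] at hu ⊢
    exact ⟨by omega, hu.2⟩

theorem occ_le {v : ℕ → X} {T s c : ℕ} (hs : s ≤ c) (x : X) : occ v T c x ≤ occ v T s x := by
  apply card_le_card
  intro u hu
  simp only [mem_filter, mem_Ico] at hu ⊢
  exact ⟨by omega, hu.2⟩

theorem occ_zero {v : ℕ → X} {T s : ℕ} {S : Finset X} (h : ∀ x ∈ S, occ v T s x ≤ 0) :
    Free v s T S := by
  intro t h1 h2 h3
  have := h _ h3
  rw [Nat.le_zero, occ, card_eq_zero, filter_eq_empty_iff] at this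
  exact this (mem_Ico.2 ⟨h1, h2⟩) rfl

/-- The number of the elements of `S` which are read in the steps `s, ..., c - 1`. -/
def seen (v : ℕ → X) (s : ℕ) (S : Finset X) (c : ℕ) : Finset X :=
  S.filter (fun x => ∃ t ∈ Ico s c, v t = x)

theorem mem_seen {v : ℕ → X} {s c : ℕ} {S : Finset X} {x : X} :
    x ∈ seen v s S c ↔ x ∈ S ∧ ∃ t, s ≤ t ∧ t < c ∧ v t = x := by
  simp [seen, and_assoc]

/-- The lemma of Alon and Maass. -/
theorem meander (v : ℕ → X) (T : ℕ) : ∀ (k a b s : ℕ), a + b = k → s ≤ T → ∀ S₁ S₂ : Finset X,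
    Disjoint S₁ S₂ → (∀ x ∈ S₁, occ v T s x ≤ a) → (∀ x ∈ S₂, occ v T s x ≤ b) →
    ∃ A ⊆ S₁, ∃ B ⊆ S₂, #S₁ ≤ 2 ^ k * #A ∧ #S₂ ≤ 2 ^ k * #B ∧ Alt v T A B k s := by
  have hmono : ∀ (A B : Finset X) (k s : ℕ), s ≤ T → (Free v s T A ∨ Free v s T B) →
      Alt v T A B k s := by
    intro A B k
    induction k with
    | zero => intro s _ h; exact h
    | succ k ih =>
      intro s hs h
      refine ⟨T, hs, le_rfl, h, ih T le_rfl (Or.inl ?_)⟩
      intro t h1 h2
      omega
  have htriv : ∀ (S₁ S₂ : Finset X) (k s : ℕ), s ≤ T → (Free v s T S₁ ∨ Free v s T S₂) →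
      ∃ A ⊆ S₁, ∃ B ⊆ S₂, #S₁ ≤ 2 ^ k * #A ∧ #S₂ ≤ 2 ^ k * #B ∧ Alt v T A B k s := by
    intro S₁ S₂ k s hs h
    exact ⟨S₁, Subset.rfl, S₂, Subset.rfl, Nat.le_mul_of_pos_left _ (by positivity),
      Nat.le_mul_of_pos_left _ (by positivity), hmono _ _ _ _ hs h⟩
  intro k
  induction k with
  | zero =>
    intro a b s hab hs S₁ S₂ _ h1 _
    obtain ⟨rfl, rfl⟩ : a = 0 ∧ b = 0 := by omega
    exact htriv _ _ _ _ hs (Or.inl (occ_zero h1))
  | succ k ih =>
    intro a b s hab hs S₁ S₂ hd h1 h2
    rcases Nat.eq_zero_or_pos a with rfl | ha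
    · exact htriv _ _ _ _ hs (Or.inl (occ_zero h1))
    rcases Nat.eq_zero_or_pos b with rfl | hb
    · exact htriv _ _ _ _ hs (Or.inr (occ_zero h2))
    rcases S₁.eq_empty_or_nonempty with rfl | hne1
    · exact htriv _ _ _ _ hs (Or.inl (fun t _ _ => by simp))
    rcases S₂.eq_empty_or_nonempty with rfl | hne2
    · exact htriv _ _ _ _ hs (Or.inr (fun t _ _ => by simp))
    have hp1 := card_pos.2 hne1
    have hp2 := card_pos.2 hne2
    -- the complement of the seen elements
    have hsplit : ∀ (S : Finset X) (c : ℕ), #(seen v s S c) + #(S \ seen v s S c) = #S := by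
      intro S c
      rw [add_comm]
      exact card_sdiff_add_card_eq_card (filter_subset _ _)
    have hfree : ∀ (S : Finset X) (c : ℕ), Free v s c (S \ seen v s S c) := by
      intro S c t h3 h4 h5
      rw [mem_sdiff, mem_seen] at h5
      exact h5.2 ⟨h5.1, t, h3, h4, rfl⟩
    by_cases hex : ∃ c, c ≤ T ∧ (#S₁ ≤ 2 * #(seen v s S₁ c) ∨ #S₂ ≤ 2 * #(seen v s S₂ c))
    · classical
      obtain ⟨hcT, hc⟩ := Nat.find_spec hex
      have hmin := fun {m : ℕ} (h : m < Nat.find hex) => Nat.find_min hex h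
      generalize Nat.find hex = c at hcT hc hmin
      have hsc : s < c := by
        by_contra hlt
        have hemp : ∀ S : Finset X, seen v s S c = ∅ := by
          intro S
          rw [seen, filter_eq_empty_iff]
          rintro x - ⟨t, ht, -⟩
          rw [mem_Ico] at ht
          omega
        rw [hemp, hemp, card_empty] at hc
        omega
      obtain ⟨c', rfl⟩ : ∃ c', c = c' + 1 := ⟨c - 1, by omega⟩
      have hlt := hmin (m := c') (by omega)
      push Not at hlt
      obtain ⟨hl1, hl2⟩ := hlt (by omega)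
      -- only one of the two sets grows in the last step
      have hgrow : ∀ S : Finset X, v c' ∉ S → seen v s S (c' + 1) = seen v s S c' := by
        intro S hS
        ext x
        rw [mem_seen, mem_seen]
        constructor
        · rintro ⟨hx, t, h3, h4, h5⟩
          refine ⟨hx, t, h3, ?_, h5⟩
          by_contra h6
          have : t = c' := by omega
          subst this
          exact hS (h5 ▸ hx)
        · rintro ⟨hx, t, h3, h4, h5⟩
          exact ⟨hx, t, h3, by omega, h5⟩
      by_cases hv : v c' ∈ S₁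
      · have hv2 : v c' ∉ S₂ := fun h => (disjoint_left.1 hd) hv h
        have h3 := hgrow _ hv2
        have hc1 : #S₁ ≤ 2 * #(seen v s S₁ (c' + 1)) := by
          rcases hc with h | h
          · exact h
          · rw [h3] at h; omega
        have h4 := hsplit S₂ (c' + 1)
        have h5 : #S₂ ≤ 2 * #(S₂ \ seen v s S₂ (c' + 1)) := by rw [h3] at h4 ⊢; omega
        obtain ⟨A, hA, B, hB, hcA, hcB, halt⟩ := ih (a - 1) b (c' + 1) (by omega) hcT
          (seen v s S₁ (c' + 1)) (S₂ \ seen v s S₂ (c' + 1))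
          (Disjoint.mono (filter_subset _ _) sdiff_subset hd)
          (fun x hx => by
            have := occ_lt hcT hsc.le (mem_seen.1 hx).2
            have := h1 x (mem_seen.1 hx).1
            omega)
          (fun x hx => (occ_le hsc.le x).trans (h2 x (mem_sdiff.1 hx).1))
        refine ⟨A, hA.trans (filter_subset _ _), B, hB.trans sdiff_subset, ?_, ?_, ?_⟩
        · rw [pow_succ]; nlinarith
        · rw [pow_succ]; nlinarith
        · refine ⟨c' + 1, hsc.le, hcT, Or.inr ?_, halt⟩
          intro t h6 h7 h8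
          exact hfree S₂ (c' + 1) t h6 h7 (hB h8)
      · have h3 := hgrow _ hv
        have hc1 : #S₂ ≤ 2 * #(seen v s S₂ (c' + 1)) := by
          rcases hc with h | h
          · rw [h3] at h; omega
          · exact h
        have h4 := hsplit S₁ (c' + 1)
        have h5 : #S₁ ≤ 2 * #(S₁ \ seen v s S₁ (c' + 1)) := by rw [h3] at h4 ⊢; omega
        obtain ⟨A, hA, B, hB, hcA, hcB, halt⟩ := ih a (b - 1) (c' + 1) (by omega) hcT
          (S₁ \ seen v s S₁ (c' + 1)) (seen v s S₂ (c' + 1))
          (Disjoint.mono sdiff_subset (filter_subset _ _) hd)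
          (fun x hx => (occ_le hsc.le x).trans (h1 x (mem_sdiff.1 hx).1))
          (fun x hx => by
            have := occ_lt hcT hsc.le (mem_seen.1 hx).2
            have := h2 x (mem_seen.1 hx).1
            omega)
        refine ⟨A, hA.trans sdiff_subset, B, hB.trans (filter_subset _ _), ?_, ?_, ?_⟩
        · rw [pow_succ]; nlinarith
        · rw [pow_succ]; nlinarith
        · refine ⟨c' + 1, hsc.le, hcT, Or.inl ?_, halt⟩
          intro t h6 h7 h8
          exact hfree S₁ (c' + 1) t h6 h7 (hA h8)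
    · push Not at hex
      obtain ⟨h3, h4⟩ := hex T le_rfl
      have h5 := hsplit S₁ T
      refine ⟨S₁ \ seen v s S₁ T, sdiff_subset, S₂, Subset.rfl, ?_, ?_, ?_⟩
      · have : 1 ≤ 2 ^ k := Nat.one_le_two_pow
        rw [pow_succ]
        nlinarith
      · exact Nat.le_mul_of_pos_left _ (by positivity)
      · exact hmono _ _ _ _ hs (Or.inl (hfree S₁ T))

end Pool.Agent.X249.GI
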