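import Pool.Agent.X249.GI.Obl

/-!
# The lower bound for nondeterministic oblivious branching programs
-/

set_option autoImplicit false

namespace Pool.Agent.X249.GI

open Finset

variable {σ : Type}

/-- The rarely read positions of one of the two graphs. -/
def rare {m : ℕ} (v : ℕ → Bool × Sym2 (Fin m ⊕ Fin m)) (T k : ℕ) (b : Bool) :
    Finset (Fin m × Fin m) :=
  univ.filter (fun p => occ v T 0 (b, ed p) ≤ 2 * k)

theorem card_rare {m : ℕ} (v : ℕ → Bool × Sym2 (Fin m ⊕ Fin m)) {T k : ℕ} (hT : T ≤ k * m ^ 2)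
    (b : Bool) : m ^ 2 ≤ 2 * #(rare v T k b) := by
  classical
  have hcard : #(univ : Finset (Fin m × Fin m)) = m ^ 2 := by
    rw [card_univ, Fintype.card_prod, Fintype.card_fin, pow_two]
  have h1 : #((univ : Finset (Fin m × Fin m)).filter (fun p => occ v T 0 (b, ed p) ≤ 2 * k)) +
      #((univ : Finset (Fin m × Fin m)).filter (fun p => ¬ occ v T 0 (b, ed p) ≤ 2 * k)) =
        m ^ 2 := by
    rw [card_filter_add_card_filter_not, hcard]
  set E' := (univ : Finset (Fin m × Fin m)).filter (fun p => ¬ occ v T 0 (b, ed p) ≤ 2 * k)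
    with hE'
  have h2 : #E' * (2 * k + 1) ≤ ∑ p ∈ E', occ v T 0 (b, ed p) := by
    rw [← smul_eq_mul]
    refine card_nsmul_le_sum _ _ _ (fun p hp => ?_)
    have := (mem_filter.1 hp).2
    omega
  have h3 : ∑ p ∈ E', occ v T 0 (b, ed p) ≤ T := by
    have h4 : ∀ p ∈ E', occ v T 0 (b, ed p) = ∑ t ∈ Ico 0 T, if v t = (b, ed p) then 1 else 0 := by
      intro p _
      rw [occ, card_filter]
    rw [sum_congr rfl h4, sum_comm]
    refine (sum_le_card_nsmul _ _ 1 (fun t _ => ?_)).trans (by simp)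
    by_cases h5 : ∃ p ∈ E', v t = (b, ed p)
    · obtain ⟨p, hp, h6⟩ := h5
      rw [sum_eq_single_of_mem p hp]
      · rw [if_pos h6]
      · intro p' _ hne
        rw [if_neg]
        intro h7
        rw [h6] at h7
        exact hne (ed_injective (Prod.mk.inj h7).2.symm)
    · push Not at h5
      rw [sum_eq_zero (fun p hp => if_neg (h5 p hp))]
      exact Nat.zero_le _
  have h4 : #E' * (2 * k + 1) ≤ k * m ^ 2 := h2.trans (h3.trans hT)
  have h5 : 2 * #E' ≤ m ^ 2 := by
    by_contra h6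
    have : (m ^ 2 + 1) * (2 * k + 1) ≤ 2 * #E' * (2 * k + 1) :=
      Nat.mul_le_mul_right _ (by omega)
    nlinarith
  unfold rare
  omega

/-- The lower bound. -/
theorem oblivious {m k : ℕ} [Fintype σ] (a b : Prop) (P : NOBP (Bool × Sym2 (Fin m ⊕ Fin m)) σ)
    (hP : DecidesIsoOn a b P) (hT : P.T ≤ k * m ^ 2) : ∃ q : ℕ, m ^ 2 ≤ 2 ^ (8 * k + 2) * q ∧
      2 ^ q ≤ (2 * m).factorial * Fintype.card σ ^ (4 * k + 1) := by
  classical
  have hN1 := card_rare P.var hT false
  have hN2 := card_rare P.var hT true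
  have hinj : ∀ c : Bool, Function.Injective (fun p : Fin m × Fin m => (c, ed p)) := by
    intro c p p' h
    exact ed_injective (Prod.mk.inj h).2
  obtain ⟨A, hA, B, hB, hcA, hcB, halt⟩ := meander P.var P.T (4 * k) (2 * k) (2 * k) 0 (by omega)
    (Nat.zero_le _) ((rare P.var P.T k false).image (fun p => (false, ed p)))
    ((rare P.var P.T k true).image (fun p => (true, ed p)))
    (by
      rw [disjoint_left]
      intro x hx hx'
      obtain ⟨e, _, rfl⟩ := mem_image.1 hx
      obtain ⟨f, _, hf⟩ := mem_image.1 hx'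
      exact absurd (congrArg Prod.fst hf) (by simp))
    (by
      intro x hx
      obtain ⟨e, he, rfl⟩ := mem_image.1 hx
      exact (mem_filter.1 he).2)
    (by
      intro x hx
      obtain ⟨e, he, rfl⟩ := mem_image.1 hx
      exact (mem_filter.1 he).2)
  rw [card_image_of_injective _ (hinj _)] at hcA hcB
  set A₀ : Finset (Fin m × Fin m) := univ.filter (fun p => (false, ed p) ∈ A) with hA₀
  set B₀ : Finset (Fin m × Fin m) := univ.filter (fun p => (true, ed p) ∈ B) with hB₀
  have hcA₀ : #A₀ = #A := by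
    rw [← card_image_of_injective A₀ (hinj false)]
    congr 1
    ext v
    rw [mem_image]
    constructor
    · rintro ⟨p, hp, rfl⟩
      exact (mem_filter.1 hp).2
    · intro hv
      obtain ⟨p, -, rfl⟩ := mem_image.1 (hA hv)
      exact ⟨p, mem_filter.2 ⟨mem_univ _, hv⟩, rfl⟩
  have hcB₀ : #B₀ = #B := by
    rw [← card_image_of_injective B₀ (hinj true)]
    congr 1
    ext v
    rw [mem_image]
    constructor
    · rintro ⟨p, hp, rfl⟩
      exact (mem_filter.1 hp).2
    · intro hv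
      obtain ⟨p, -, rfl⟩ := mem_image.1 (hB hv)
      exact ⟨p, mem_filter.2 ⟨mem_univ _, hv⟩, rfl⟩
  obtain ⟨ρ, hρ⟩ := exists_overlap A₀ B₀
  let R₁ : Fin m × Fin m → Fin m × Fin m := fun p => (ρ.1 p.1, ρ.2 p.2)
  have hR₁ : Function.Injective R₁ := by
    intro p p' h
    simp only [R₁, Prod.mk.injEq, EmbeddingLike.apply_eq_iff_eq] at h
    exact Prod.ext h.1 h.2
  set Q := {p ∈ A₀ | (ρ.1 p.1, ρ.2 p.2) ∈ B₀} with hQ
  refine ⟨#Q, ?_, ?_⟩
  · rw [hcA₀, hcB₀] at hρ
    have h1 : m ^ 2 ≤ 2 ^ (4 * k + 1) * #A := by rw [pow_succ 2]; nlinarith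
    have h2 : m ^ 2 ≤ 2 ^ (4 * k + 1) * #B := by rw [pow_succ 2]; nlinarith
    rcases Nat.eq_zero_or_pos (m ^ 2) with h0 | h0
    · rw [h0]; exact Nat.zero_le _
    · have h3 : m ^ 2 * m ^ 2 ≤ m ^ 2 * (2 ^ (8 * k + 2) * #Q) := by
        calc m ^ 2 * m ^ 2 ≤ (2 ^ (4 * k + 1) * #A) * (2 ^ (4 * k + 1) * #B) :=
              Nat.mul_le_mul h1 h2
          _ = 2 ^ (8 * k + 2) * (#A * #B) := by
              rw [show 8 * k + 2 = (4 * k + 1) + (4 * k + 1) by ring, pow_add]; ring
          _ ≤ 2 ^ (8 * k + 2) * (m ^ 2 * #Q) := Nat.mul_le_mul_left _ hρ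
          _ = m ^ 2 * (2 ^ (8 * k + 2) * #Q) := by ring
      exact Nat.le_of_mul_le_mul_left h3 h0
  · -- the inputs
    let Gx : Finset (Fin m × Fin m) → SimpleGraph (Fin m ⊕ Fin m) := fun x => gr a b (x ∩ Q)
    let Hy : Finset (Fin m × Fin m) → SimpleGraph (Fin m ⊕ Fin m) := fun y =>
      gr a b ((y ∩ Q).image R₁)
    have hiso : ∀ x, Nonempty (Gx x ≃g Hy x) := by
      intro x
      refine ⟨⟨Equiv.sumCongr ρ.1 ρ.2, ?_⟩⟩
      have himg : ∀ i j, (ρ.1 i, ρ.2 j) ∈ (x ∩ Q).image R₁ ↔ (i, j) ∈ x ∩ Q := by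
        intro i j
        exact hR₁.mem_finset_image (a := (i, j))
      rintro (i | i) (j | j)
      · show (ρ.1 i ≠ ρ.1 j ∧ a) ↔ (i ≠ j ∧ a)
        rw [ρ.1.injective.ne_iff]
      · exact himg i j
      · exact himg j i
      · show (ρ.2 i ≠ ρ.2 j ∧ b) ↔ (i ≠ j ∧ b)
        rw [ρ.2.injective.ne_iff]
    have hcov := cover P (fun x y => pairBits (Gx x) (Hy y)) (A := A) (B := B)
      (by
        rintro ⟨c, f⟩ hv x y y'
        cases c with
        | false => rfl
        | true =>
          have hno : ∀ z p, ed p = f → p ∉ (z ∩ Q).image R₁ := by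
            intro z p hp hmem
            obtain ⟨p', hp', rfl⟩ := mem_image.1 hmem
            have h1 := (mem_filter.1 (mem_inter.1 hp').2).2
            have h2 := (mem_filter.1 h1).2
            apply hv
            rw [← hp]
            exact h2
          have h3 : f ∈ (Hy y).edgeSet ↔ f ∈ (Hy y').edgeSet :=
            mem_edgeSet_congr (fun p hp => iff_of_false (hno y p hp) (hno y' p hp))
          simp only [pairBits, if_true, h3])
      (by
        rintro ⟨c, f⟩ hv x x' y
        cases c with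
        | true => rfl
        | false =>
          have hno : ∀ z p, ed p = f → p ∉ z ∩ Q := by
            intro z p hp hmem
            have h1 := (mem_filter.1 (mem_inter.1 hmem).2).1
            have h2 := (mem_filter.1 h1).2
            apply hv
            rw [← hp]
            exact h2
          have h3 : f ∈ (Gx x).edgeSet ↔ f ∈ (Gx x').edgeSet :=
            mem_edgeSet_congr (fun p hp => iff_of_false (hno x p hp) (hno x' p hp))
          simp [pairBits, h3]) (4 * k) 0 (Nat.zero_le _) halt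
    choose I hI hcard R hR using hcov
    have hdec : ∀ x y, P.Accepts (pairBits (Gx x) (Hy y)) ↔ Nonempty (Gx x ≃g Hy y) :=
      fun x y => hP _ _ (gr_sided _ _ _) (gr_sided _ _ _)
    have hdiag : ∀ x : Finset (Fin m × Fin m), ∃ j : Σ p, I p, P.start j.1 ∧
        x ∈ (R j.1 j.2).1 ∧ x ∈ (R j.1 j.2).2 := by
      intro x
      have h1 := (hdec x x).2 (hiso x)
      rw [accepts_iff] at h1
      obtain ⟨p, hp, h2⟩ := h1
      obtain ⟨i, hi⟩ := (hR p x x).1 h2
      exact ⟨⟨p, i⟩, hp, hi⟩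
    choose F hF using hdiag
    have hfib : ∀ j ∈ Q.powerset.image F, #{x ∈ Q.powerset | F x = j} ≤ (2 * m).factorial := by
      intro j hj
      obtain ⟨x₀, -, rfl⟩ := mem_image.1 hj
      have hacc : ∀ x, F x = F x₀ → Nonempty (Gx x ≃g Hy x₀) := by
        intro x hx
        apply (hdec _ _).1
        rw [accepts_iff]
        refine ⟨(F x₀).1, (hF x₀).1, (hR _ _ _).2 ⟨(F x₀).2, ?_, (hF x₀).2.2⟩⟩
        have := (hF x).2.1
        rwa [hx] at this
      have hacc' : ∀ x, F x = F x₀ → ∃ e : Equiv.Perm (Fin m ⊕ Fin m), ∀ u v,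
          (Hy x₀).Adj (e u) (e v) ↔ (Gx x).Adj u v := by
        intro x hx
        obtain ⟨e⟩ := hacc x hx
        exact ⟨e.toEquiv, fun u v => e.map_rel_iff⟩
      choose! φ hφ using hacc'
      have h1 : Fintype.card (Equiv.Perm (Fin m ⊕ Fin m)) = (2 * m).factorial := by
        rw [Fintype.card_perm, Fintype.card_sum, Fintype.card_fin, two_mul]
      rw [← h1, ← card_univ]
      apply card_le_card_of_injOn φ (fun _ _ => mem_univ _)
      intro x hx y hy hxy
      simp only [coe_filter, mem_powerset] at hx hy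
      ext ⟨i, j⟩
      have h2 := hφ x hx.2 (Sum.inl i) (Sum.inr j)
      have h3 := hφ y hy.2 (Sum.inl i) (Sum.inr j)
      rw [hxy] at h2
      have h4 : (i, j) ∈ x ∩ Q ↔ (i, j) ∈ y ∩ Q := h2.symm.trans h3
      rwa [inter_eq_left.2 hx.1, inter_eq_left.2 hy.1] at h4
    have h5 := card_le_mul_card_image Q.powerset (2 * m).factorial hfib
    rw [card_powerset] at h5
    refine h5.trans (Nat.mul_le_mul_left _ ?_)
    refine (card_le_univ _).trans ?_
    rw [Fintype.card_sigma, pow_succ, mul_comm]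
    refine (sum_le_card_nsmul _ _ (Fintype.card σ ^ (4 * k)) (fun p _ => hcard p)).trans ?_
    rw [card_univ, smul_eq_mul]

/-- The lower bound, with logarithms. -/
theorem oblivious_log {m k : ℕ} [Fintype σ] (a b : Prop)
    (P : NOBP (Bool × Sym2 (Fin m ⊕ Fin m)) σ) (hP : DecidesIsoOn a b P)
    (hT : P.T ≤ k * m ^ 2) : (m : ℝ) ^ 2 ≤ 2 ^ (8 * k + 2) *
      ((4 * k + 1) * Real.logb 2 (Fintype.card σ) + 2 * m * Real.logb 2 (2 * m)) := by
  obtain ⟨q, h1, h2⟩ := oblivious a b P hP hT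
  have h1' : (m : ℝ) ^ 2 ≤ 2 ^ (8 * k + 2) * q := by exact_mod_cast h1
  refine h1'.trans (mul_le_mul_of_nonneg_left ?_ (by positivity))
  rcases Nat.eq_zero_or_pos m with rfl | hm
  · -- no vertices
    have h3 : (2 : ℝ) ^ q ≤ (Fintype.card σ : ℝ) ^ (4 * k + 1) := by
      have : 2 ^ q ≤ Fintype.card σ ^ (4 * k + 1) := by simpa using h2
      exact_mod_cast this
    have hpos : (0 : ℝ) < (Fintype.card σ : ℝ) ^ (4 * k + 1) := lt_of_lt_of_le (by positivity) h3
    have h4 := Real.logb_le_logb_of_le (b := 2) (by norm_num) (by positivity) h3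
    rw [Real.logb_pow, Real.logb_pow, Real.logb_self_eq_one (by norm_num)] at h4
    push_cast at h4
    simpa using h4
  · have h3 : (2 : ℝ) ^ q ≤ ((2 * m : ℕ) : ℝ) ^ (2 * m) * (Fintype.card σ : ℝ) ^ (4 * k + 1) := by
      have : 2 ^ q ≤ (2 * m) ^ (2 * m) * Fintype.card σ ^ (4 * k + 1) :=
        h2.trans (Nat.mul_le_mul_right _ (Nat.factorial_le_pow _))
      exact_mod_cast this
    have hpos1 : (0 : ℝ) < ((2 * m : ℕ) : ℝ) ^ (2 * m) := by positivity
    have hpos2 : (0 : ℝ) < (Fintype.card σ : ℝ) ^ (4 * k + 1) := by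
      by_contra hcon
      have h5 : (Fintype.card σ : ℝ) ^ (4 * k + 1) = 0 := le_antisymm (not_lt.1 hcon) (by positivity)
      rw [h5, mul_zero] at h3
      exact absurd h3 (not_le.2 (by positivity))
    have h4 := Real.logb_le_logb_of_le (b := 2) (by norm_num) (by positivity) h3
    rw [Real.logb_mul hpos1.ne' hpos2.ne', Real.logb_pow, Real.logb_pow, Real.logb_pow,
      Real.logb_self_eq_one (by norm_num)] at h4
    push_cast at h4
    linarith

end Pool.Agent.X249.GI
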